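import Mathlib

set_option autoImplicit false

/-!
# Representation functions and multiplicative semigroups: the descent argument

`reps A h n` is the set of the multisets of `h` elements of `A` with sum `n`.

`core`: let `M` be a multiplicative semigroup, `M B ⊆ B ⊆ C M`, and suppose that every large element
of `B` is a sum of `h ≥ 2` elements of `B`.  If `B` has many elements below `2 ^ L` then some number
has many representations.
-/

namespace Pool.Agent.Helper27K9.MSG

open Finset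

/-- The multisets of `h` elements of `A` with sum `n`. -/
def reps (A : Set ℕ) (h n : ℕ) : Set (Multiset ℕ) :=
  {R | R.card = h ∧ R.sum = n ∧ ∀ x ∈ R, x ∈ A}

/-- The number of representations of `n` as a sum of `h` elements of `A`. -/
noncomputable def rep (A : Set ℕ) (h n : ℕ) : ℕ := (reps A h n).ncard

lemma reps_finite (A : Set ℕ) (h n : ℕ) : (reps A h n).Finite := by
  classical
  refine Set.Finite.subset
    (s := {R : Multiset ℕ | R ∈ (Multiset.powerset (h • (Finset.range (n + 1)).val)).toFinset})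
    (Finset.finite_toSet _) ?_
  rintro R ⟨h1, h2, -⟩
  simp only [Set.mem_ofPred_eq, Multiset.mem_toFinset, Multiset.mem_powerset]
  rw [Multiset.le_iff_count]
  intro x
  by_cases hx : x ∈ R
  · have hxn : x ≤ n := h2 ▸ Multiset.le_sum_of_mem hx
    rw [Multiset.count_nsmul]
    have : Multiset.count x (Finset.range (n + 1)).val = 1 :=
      Multiset.count_eq_one_of_mem (Finset.range (n + 1)).nodup (by simpa using by omega)
    rw [this, mul_one, ← h1]
    exact Multiset.count_le_card x R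
  · rw [Multiset.count_eq_zero_of_notMem hx]
    exact Nat.zero_le _

/-- lower bound for `rep` by an injective family -/
lemma le_rep {ι : Type*} (A : Set ℕ) (h n : ℕ) (s : Finset ι) (f : ι → Multiset ℕ)
    (hf : ∀ i ∈ s, f i ∈ reps A h n) (hinj : Set.InjOn f s) : s.card ≤ rep A h n := by
  classical
  have h1 : (s.image f).card = s.card := Finset.card_image_of_injOn hinj
  rw [← h1, ← Set.ncard_coe_finset]
  refine Set.ncard_le_ncard ?_ (reps_finite A h n)
  intro R hR
  simp only [Finset.coe_image, Set.mem_image, Finset.mem_coe] at hR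
  obtain ⟨i, hi, rfl⟩ := hR
  exact hf i hi

/-- the smallest element of a multiset -/
noncomputable def mn (R : Multiset ℕ) : ℕ := sInf {y | y ∈ R}

lemma mn_mem {R : Multiset ℕ} (h : R ≠ 0) : mn R ∈ R :=
  Nat.sInf_mem (s := {y | y ∈ R}) (Multiset.exists_mem_of_ne_zero h)

lemma mn_le {R : Multiset ℕ} {y : ℕ} (h : y ∈ R) : mn R ≤ y := Nat.sInf_le h

lemma mn_map {R : Multiset ℕ} (h : R ≠ 0) (u : ℕ) : mn (R.map (fun y => u * y)) = u * mn R := by
  apply le_antisymm
  · exact mn_le (Multiset.mem_map_of_mem _ (mn_mem h))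
  · have h2 : R.map (fun y => u * y) ≠ 0 := by simpa using h
    obtain ⟨y, hy, hy2⟩ := Multiset.mem_map.1 (mn_mem h2)
    rw [← hy2]
    exact Nat.mul_le_mul_left _ (mn_le hy)

lemma card_mul_mn_le (R : Multiset ℕ) : R.card * mn R ≤ R.sum := by
  have := Multiset.card_nsmul_le_sum (s := R) (a := mn R) (fun x hx => mn_le hx)
  simpa using this

/-- the number of multisets of `L` elements of a set of at most `F + 1` elements -/
lemma card_multisets {α : Type*} [DecidableEq α] (T : Finset α) (L F : ℕ) (hT : T.card ≤ F + 1)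
    (hT0 : T.Nonempty) :
    Fintype.card (Sym T L) ≤ (F + L).choose L := by
  classical
  rw [Sym.card_sym_eq_choose]
  apply Nat.choose_le_choose
  rw [Fintype.card_coe]
  have := hT0.card_pos
  omega

/-- the descent argument -/
theorem core (h : ℕ) (hh : 2 ≤ h) (B M C : Set ℕ) (hM1 : 1 ∈ M)
    (hMM : ∀ x ∈ M, ∀ y ∈ M, x * y ∈ M) (hMB : ∀ m ∈ M, ∀ b ∈ B, m * b ∈ B) (hB0 : 0 ∉ B)
    (hBC : ∀ b ∈ B, ∃ c ∈ C, ∃ m ∈ M, b = c * m) (X0 : ℕ)
    (hdec : ∀ X ∈ B, X0 ≤ X → (reps B h X).Nonempty) (L F K : ℕ)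
    (hcount : X0 * ((F + L).choose L) < (B ∩ Set.Icc 1 (2 ^ L)).ncard)
    (hF : K * (C ∩ Set.Icc 1 (2 ^ L)).ncard ≤ F) (hK : 1 ≤ K) :
    ∃ N, K ≤ rep B h N ∧ K ≤ N ∧ N ≤ 2 ^ (L * (K + 1)) := by
  classical
  choose! R hR using hdec
  have hR0 : ∀ X ∈ B, X0 ≤ X → R X ≠ 0 := by
    intro X hX hX0 h0
    have := (hR X hX hX0).1
    rw [h0] at this
    simp at this
    omega
  have htB : ∀ X ∈ B, X0 ≤ X → mn (R X) ∈ B := fun X hX hX0 =>
    (hR X hX hX0).2.2 _ (mn_mem (hR0 X hX hX0))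
  have ht2 : ∀ X ∈ B, X0 ≤ X → 2 * mn (R X) ≤ X := by
    intro X hX hX0
    have h1 := card_mul_mn_le (R X)
    rw [(hR X hX hX0).1, (hR X hX hX0).2.1] at h1
    exact le_trans (Nat.mul_le_mul_right _ hh) h1
  have hpos : ∀ X ∈ B, 1 ≤ X := by
    intro X hX
    rcases Nat.eq_zero_or_pos X with h0 | h0
    · exact absurd (h0 ▸ hX) hB0
    · exact h0
  set s : ℕ → ℚ := fun X => (mn (R X) : ℚ) / X with hs
  set 𝒳 : Finset ℕ := (Finset.range (2 ^ L + 1)).filter (fun X => X ∈ B ∧ X0 ≤ X) with h𝒳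
  set Sg : Finset ℚ := 𝒳.image s with hSg
  -- there are many values of `s`
  have hbig : F < Sg.card := by
    by_contra hcon
    have hcon : Sg.card ≤ F := not_lt.1 hcon
    set T : Finset ℚ := insert 1 Sg with hT
    have hTc : T.card ≤ F + 1 := le_trans (Finset.card_insert_le _ _) (by omega)
    have hTpos : ∀ σ ∈ T, 0 < σ := by
      intro σ hσ
      rcases Finset.mem_insert.1 hσ with rfl | hσ
      · norm_num
      · obtain ⟨X, hX, rfl⟩ := Finset.mem_image.1 hσ
        obtain ⟨-, hXB, hX0⟩ := Finset.mem_filter.1 hX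
        have h1 := hpos X hXB
        have h2 := hpos _ (htB X hXB hX0)
        simp only [hs]
        positivity
    -- coding
    have code : ∀ j, j ≤ L → ∀ X ∈ B, X ≤ 2 ^ j → ∃ e : ℕ, e < X0 ∧ ∃ S : Multiset ℚ, S.card = j ∧
        (∀ σ ∈ S, σ ∈ T) ∧ (X : ℚ) * S.prod = e := by
      intro j
      induction j with
      | zero =>
        intro _ X hX hX1
        have hX1' : X = 1 := le_antisymm (by simpa using hX1) (hpos X hX)
        have hlt : X < X0 := by
          by_contra hge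
          have h2 := ht2 X hX (not_lt.1 hge)
          have h3 := hpos _ (htB X hX (not_lt.1 hge))
          omega
        exact ⟨X, hlt, 0, rfl, by simp, by simp⟩
      | succ j ih =>
        intro hj X hX hXj
        by_cases hlt : X < X0
        · refine ⟨X, hlt, Multiset.replicate (j + 1) 1, by simp, ?_, by simp⟩
          intro σ hσ
          rw [Multiset.eq_of_mem_replicate hσ]
          exact Finset.mem_insert_self _ _
        · have hge := not_lt.1 hlt
          obtain ⟨e, he, S, hS1, hS2, hS3⟩ := ih (by omega) (mn (R X)) (htB X hX hge) (by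
            have := ht2 X hX hge
            rw [pow_succ] at hXj
            omega)
          refine ⟨e, he, s X ::ₘ S, by simp [hS1], ?_, ?_⟩
          · intro σ hσ
            rcases Multiset.mem_cons.1 hσ with rfl | hσ
            · refine Finset.mem_insert_of_mem (Finset.mem_image_of_mem _ ?_)
              refine Finset.mem_filter.2 ⟨Finset.mem_range.2 ?_, hX, hge⟩
              have : 2 ^ (j + 1) ≤ 2 ^ L := Nat.pow_le_pow_right (by norm_num) hj
              omega
            · exact hS2 σ hσ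
          · rw [Multiset.prod_cons, ← mul_assoc, ← hS3]
            congr 1
            have h1 : (X : ℚ) ≠ 0 := by
              have := hpos X hX
              positivity
            simp only [hs]
            field_simp
    -- counting
    have hfin : (B ∩ Set.Icc 1 (2 ^ L)).Finite := (Set.finite_Icc 1 (2 ^ L)).subset Set.inter_subset_right
    have code' : ∀ X : ↥(B ∩ Set.Icc 1 (2 ^ L)), ∃ q : Fin X0 × Sym T L,
        ((X : ℕ) : ℚ) * (Multiset.map (Subtype.val : ↥T → ℚ) q.2.1).prod = ((q.1 : ℕ) : ℚ) := by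
      rintro ⟨X, hX, hX1, hX2⟩
      obtain ⟨e, he, S, hS1, hS2, hS3⟩ := code L le_rfl X hX hX2
      refine ⟨⟨⟨e, he⟩, ⟨S.attach.map (fun σ => ⟨σ.1, hS2 σ.1 σ.2⟩), by simp [hS1]⟩⟩, ?_⟩
      simp only [Multiset.map_map, Function.comp_def]
      rw [← hS3]
      congr 2
      exact Multiset.attach_map_val S
    choose q hq using code'
    have hinj : Function.Injective q := by
      intro X Y hXY
      have h1 := hq X
      have h2 := hq Y
      rw [hXY] at h1
      have h3 : (Multiset.map (Subtype.val : ↥T → ℚ) (q Y).2.1).prod ≠ 0 := by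
        have : 0 < (Multiset.map (Subtype.val : ↥T → ℚ) (q Y).2.1).prod := by
          apply Multiset.prod_pos
          intro σ hσ
          obtain ⟨τ, -, rfl⟩ := Multiset.mem_map.1 hσ
          exact hTpos τ.1 τ.2
        exact this.ne'
      have h4 : ((X : ℕ) : ℚ) = ((Y : ℕ) : ℚ) := mul_right_cancel₀ h3 (h1.trans h2.symm)
      exact Subtype.ext (by exact_mod_cast h4)
    have hfty : Fintype ↥(B ∩ Set.Icc 1 (2 ^ L)) := hfin.fintype
    have h5 := Fintype.card_le_of_injective q hinj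
    rw [Fintype.card_prod, Fintype.card_fin] at h5
    have h6 : (B ∩ Set.Icc 1 (2 ^ L)).ncard = Fintype.card ↥(B ∩ Set.Icc 1 (2 ^ L)) := by
      rw [← Nat.card_coe_set_eq, Nat.card_eq_fintype_card]
    have h7 := card_multisets T L F hTc ⟨1, Finset.mem_insert_self _ _⟩
    have h8 : X0 * Fintype.card (Sym T L) ≤ X0 * ((F + L).choose L) := Nat.mul_le_mul_left _ h7
    rw [h6] at hcount
    exact absurd (lt_of_lt_of_le hcount (le_trans h5 h8)) (lt_irrefl _)
  -- pigeonhole
  choose! c hc m hm hcm using hBC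
  have hXs : ∀ σ ∈ Sg, ∃ X ∈ 𝒳, s X = σ := fun σ hσ => Finset.mem_image.1 hσ
  choose! X hX hsX using hXs
  have hXB : ∀ σ ∈ Sg, X σ ∈ B := fun σ hσ => (Finset.mem_filter.1 (hX σ hσ)).2.1
  have hXge : ∀ σ ∈ Sg, X0 ≤ X σ := fun σ hσ => (Finset.mem_filter.1 (hX σ hσ)).2.2
  have hXle : ∀ σ ∈ Sg, X σ ≤ 2 ^ L := fun σ hσ => by
    have := (Finset.mem_filter.1 (hX σ hσ)).1
    simp at this
    omega
  have hCfin : (C ∩ Set.Icc 1 (2 ^ L)).Finite := (Set.finite_Icc 1 (2 ^ L)).subset Set.inter_subset_right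
  have hmaps : ∀ σ ∈ Sg, c (X σ) ∈ hCfin.toFinset := by
    intro σ hσ
    rw [Set.Finite.mem_toFinset]
    have h1 := hcm (X σ) (hXB σ hσ)
    have h2 := hpos _ (hXB σ hσ)
    have h3 : c (X σ) ≠ 0 := by
      intro h0
      rw [h0, zero_mul] at h1
      omega
    refine ⟨hc _ (hXB σ hσ), Nat.one_le_iff_ne_zero.2 h3, ?_⟩
    refine le_trans (Nat.le_of_dvd h2 ⟨_, h1⟩) (hXle σ hσ)
  have hcard : hCfin.toFinset.card * K < Sg.card := by
    rw [← Set.ncard_eq_toFinset_card _ hCfin, mul_comm]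
    exact lt_of_le_of_lt hF hbig
  obtain ⟨c0, hc0, hc0K⟩ := Finset.exists_lt_card_fiber_of_mul_lt_card_of_maps_to hmaps hcard
  obtain ⟨Φ, hΦsub, hΦc⟩ := Finset.exists_subset_card_eq hc0K.le
  have hΦ : ∀ σ ∈ Φ, σ ∈ Sg ∧ c (X σ) = c0 := fun σ hσ => Finset.mem_filter.1 (hΦsub hσ)
  have hc0pos : 1 ≤ c0 ∧ c0 ≤ 2 ^ L := by
    rw [Set.Finite.mem_toFinset] at hc0
    exact hc0.2
  have hm1 : ∀ σ ∈ Φ, 1 ≤ m (X σ) ∧ m (X σ) ≤ 2 ^ L := by
    intro σ hσ
    have h1 := hcm (X σ) (hXB σ (hΦ σ hσ).1)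
    have h2 := hpos _ (hXB σ (hΦ σ hσ).1)
    have h3 : m (X σ) ≠ 0 := by
      intro h0
      rw [h0, mul_zero] at h1
      omega
    refine ⟨Nat.one_le_iff_ne_zero.2 h3, le_trans (Nat.le_of_dvd h2 ⟨c (X σ), ?_⟩) (hXle σ (hΦ σ hσ).1)⟩
    rw [mul_comm]
    exact h1
  set N : ℕ := c0 * ∏ σ ∈ Φ, m (X σ) with hN
  set u : ℚ → ℕ := fun σ => ∏ τ ∈ Φ.erase σ, m (X τ) with hu
  have huN : ∀ σ ∈ Φ, u σ * X σ = N := by
    intro σ hσ
    have h1 := hcm (X σ) (hXB σ (hΦ σ hσ).1)
    rw [(hΦ σ hσ).2] at h1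
    rw [hN, ← Finset.mul_prod_erase Φ (fun σ => m (X σ)) hσ]
    calc u σ * X σ = u σ * (c0 * m (X σ)) := congrArg _ h1
      _ = c0 * (m (X σ) * ∏ τ ∈ Φ.erase σ, m (X τ)) := by simp only [hu]; ring
  have huM : ∀ σ ∈ Φ, u σ ∈ M := by
    intro σ hσ
    simp only [hu]
    refine Finset.prod_induction _ (fun x => x ∈ M) (fun a b ha hb => hMM a ha b hb) hM1 ?_
    intro τ hτ
    exact hm _ (hXB τ (hΦ τ (Finset.mem_of_mem_erase hτ)).1)
  have hNpos : 1 ≤ N := by
    rw [hN]
    have : 1 ≤ ∏ σ ∈ Φ, m (X σ) := Finset.one_le_prod' (fun σ hσ => (hm1 σ hσ).1)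
    nlinarith [hc0pos.1]
  have hupos : ∀ σ ∈ Φ, 1 ≤ u σ := by
    intro σ hσ
    rcases Nat.eq_zero_or_pos (u σ) with h0 | h0
    · have := huN σ hσ
      rw [h0, zero_mul] at this
      omega
    · exact h0
  refine ⟨N, ?_, ?_, ?_⟩
  · rw [← hΦc]
    refine le_rep B h N Φ (fun σ => (R (X σ)).map (fun y => u σ * y)) ?_ ?_
    · intro σ hσ
      obtain ⟨h1, h2, h3⟩ := hR (X σ) (hXB σ (hΦ σ hσ).1) (hXge σ (hΦ σ hσ).1)
      refine ⟨by simpa using h1, ?_, ?_⟩
      · rw [Multiset.sum_map_mul_left]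
        simp only [Multiset.map_id']
        rw [h2, huN σ hσ]
      · intro x hx
        obtain ⟨y, hy, rfl⟩ := Multiset.mem_map.1 hx
        exact hMB _ (huM σ hσ) _ (h3 y hy)
    · intro σ hσ τ hτ hστ
      have hσ' : σ ∈ Φ := hσ
      have hτ' : τ ∈ Φ := hτ
      have h1 : mn ((R (X σ)).map (fun y => u σ * y)) = mn ((R (X τ)).map (fun y => u τ * y)) := by
        exact congrArg mn hστ
      rw [mn_map (hR0 _ (hXB σ (hΦ σ hσ').1) (hXge σ (hΦ σ hσ').1)),
        mn_map (hR0 _ (hXB τ (hΦ τ hτ').1) (hXge τ (hΦ τ hτ').1))] at h1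
      have h2 := huN σ hσ'
      have h3 := huN τ hτ'
      rw [← hsX σ (hΦ σ hσ').1, ← hsX τ (hΦ τ hτ').1]
      have p1 := hpos _ (hXB σ (hΦ σ hσ').1)
      have p2 := hpos _ (hXB τ (hΦ τ hτ').1)
      have p3 := hupos σ hσ'
      have p4 := hupos τ hτ'
      have e1 : ((mn (R (X σ)) : ℕ) : ℚ) / X σ = ((u σ * mn (R (X σ)) : ℕ) : ℚ) / N := by
        rw [← h2]
        push_cast
        have : ((u σ : ℕ) : ℚ) ≠ 0 := by positivity
        rw [mul_div_mul_left _ _ this]
      have e2 : ((mn (R (X τ)) : ℕ) : ℚ) / X τ = ((u τ * mn (R (X τ)) : ℕ) : ℚ) / N := by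
        rw [← h3]
        push_cast
        have : ((u τ : ℕ) : ℚ) ≠ 0 := by positivity
        rw [mul_div_mul_left _ _ this]
      simp only [hs]
      rw [e1, e2, h1]
  · -- the `X σ` are different divisors of `N`
    have hXinj : Set.InjOn X Φ := by
      intro σ hσ τ hτ hστ
      rw [← hsX σ (hΦ σ hσ).1, ← hsX τ (hΦ τ hτ).1, hστ]
    have h1 : (Φ.image X).card = K := by rw [Finset.card_image_of_injOn hXinj, hΦc]
    have h2 : Φ.image X ⊆ Finset.Icc 1 N := by
      intro x hx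
      obtain ⟨σ, hσ, rfl⟩ := Finset.mem_image.1 hx
      rw [Finset.mem_Icc]
      refine ⟨hpos _ (hXB σ (hΦ σ hσ).1), Nat.le_of_dvd hNpos ⟨u σ, ?_⟩⟩
      rw [mul_comm]
      exact (huN σ hσ).symm
    have h3 := Finset.card_le_card h2
    rw [h1, Nat.card_Icc] at h3
    omega
  · have h1 : ∏ σ ∈ Φ, m (X σ) ≤ (2 ^ L) ^ K := by
      rw [← hΦc]
      exact Finset.prod_le_pow_card _ _ _ (fun σ hσ => (hm1 σ hσ).2)
    calc N = c0 * ∏ σ ∈ Φ, m (X σ) := hN
      _ ≤ 2 ^ L * (2 ^ L) ^ K := Nat.mul_le_mul hc0pos.2 h1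
      _ = 2 ^ (L * (K + 1)) := by rw [← pow_mul, ← pow_add]; ring_nf

end Pool.Agent.Helper27K9.MSG
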