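import Mathlib
import Pool.Agent.Helper27K9.MSG.Core

set_option autoImplicit false

/-!
# Sets with two affine self-maps that do not commute
-/

namespace Pool.Agent.Helper27K9.MSG

open Finset Filter

/-- the symmetric subsets -/
lemma sym_subsets (A : Set ℕ) (a : ℕ) (ha : a ∈ A) (w e₁ e₂ : ℕ) (hw : 2 ≤ w) (he : e₁ < e₂)
    (h1 : ∀ x ∈ A, w * x + e₁ ∈ A) (h2 : ∀ x ∈ A, w * x + e₂ ∈ A) (k : ℕ) :
    ∃ (p τ : ℕ) (D : Finset ℕ), D.card = 2 ^ k ∧
      (∀ t ∈ D, t ≤ τ ∧ τ - t ∈ D ∧ p + (e₂ - e₁) * t ∈ A) ∧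
      p + e₁ ≤ (a + e₁) * w ^ k ∧ τ + 1 ≤ w ^ k := by
  classical
  induction k with
  | zero => exact ⟨a, 0, {0}, by simp, by simpa using ha, by simp, by simp⟩
  | succ k ih =>
    obtain ⟨p, τ, D, hD1, hD2, hD3, hD4⟩ := ih
    refine ⟨w * p + e₁, w * τ + 1, D.image (fun t => w * t) ∪ D.image (fun t => w * t + 1), ?_, ?_, ?_, ?_⟩
    · rw [Finset.card_union_of_disjoint, Finset.card_image_of_injective, Finset.card_image_of_injective,
        hD1, pow_succ]
      · ring
      · intro x y hxy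
        have : w * x = w * y := by
          simp only at hxy
          omega
        exact Nat.eq_of_mul_eq_mul_left (by omega) this
      · intro x y hxy
        exact Nat.eq_of_mul_eq_mul_left (by omega) hxy
      · rw [Finset.disjoint_left]
        intro z hz1 hz2
        obtain ⟨x, -, rfl⟩ := Finset.mem_image.1 hz1
        obtain ⟨y, -, hy⟩ := Finset.mem_image.1 hz2
        have e1 : (w * y + 1) % w = 1 % w := by rw [Nat.mul_add_mod]
        have e2 : (w * x) % w = 0 := Nat.mul_mod_right w x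
        rw [hy, e2, Nat.mod_eq_of_lt (by omega)] at e1
        omega
    · intro t ht
      rcases Finset.mem_union.1 ht with ht | ht
      · obtain ⟨x, hx, rfl⟩ := Finset.mem_image.1 ht
        obtain ⟨g1, g2, g3⟩ := hD2 x hx
        have e1 : w * x ≤ w * τ := Nat.mul_le_mul_left _ g1
        refine ⟨by omega, ?_, ?_⟩
        · refine Finset.mem_union_right _ (Finset.mem_image.2 ⟨τ - x, g2, ?_⟩)
          rw [Nat.mul_sub]
          omega
        · have := h1 _ g3
          convert this using 1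
          ring
      · obtain ⟨x, hx, rfl⟩ := Finset.mem_image.1 ht
        obtain ⟨g1, g2, g3⟩ := hD2 x hx
        have e1 : w * x ≤ w * τ := Nat.mul_le_mul_left _ g1
        refine ⟨by omega, ?_, ?_⟩
        · refine Finset.mem_union_left _ (Finset.mem_image.2 ⟨τ - x, g2, ?_⟩)
          rw [Nat.mul_sub]
          omega
        · have := h2 _ g3
          convert this using 1
          have e3 : e₂ = e₁ + (e₂ - e₁) := by omega
          generalize e₂ - e₁ = d at *
          subst e3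
          ring
    · calc w * p + e₁ + e₁ ≤ w * (p + e₁) := by nlinarith
        _ ≤ w * ((a + e₁) * w ^ k) := Nat.mul_le_mul_left _ hD3
        _ = (a + e₁) * w ^ (k + 1) := by ring
    · calc w * τ + 1 + 1 ≤ w * (τ + 1) := by nlinarith
        _ ≤ w * w ^ k := Nat.mul_le_mul_left _ hD4
        _ = w ^ (k + 1) := by ring

theorem affine_pair (A : Set ℕ) (a : ℕ) (ha : a ∈ A) (w e₁ e₂ : ℕ) (hw : 2 ≤ w) (he : e₁ < e₂)
    (h1 : ∀ x ∈ A, w * x + e₁ ∈ A) (h2 : ∀ x ∈ A, w * x + e₂ ∈ A) (h : ℕ) (hh : 2 ≤ h) :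
    ∃ c : ℝ, 0 < c ∧ ∃ᶠ n : ℕ in atTop, (n : ℝ) ^ c ≤ rep A h n := by
  classical
  have hl2 : 0 < Real.log 2 := Real.log_pos (by norm_num)
  have hw' : (2 : ℝ) ≤ w := by exact_mod_cast hw
  have hlw : 0 < Real.log w := Real.log_pos (by linarith)
  -- many representations
  have key : ∀ k : ℕ, ∃ n, 2 ^ k ≤ 2 * rep A h n ∧ 2 ^ k ≤ n + 1 ∧
      n ≤ (2 * (a + e₁) + e₂ + (h - 2) * a) * w ^ k := by
    intro k
    obtain ⟨p, τ, D, hD1, hD2, hD3, hD4⟩ := sym_subsets A a ha w e₁ e₂ hw he h1 h2 k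
    set d := e₂ - e₁ with hd
    have hd1 : 1 ≤ d := by omega
    set n := 2 * p + d * τ + (h - 2) * a with hn
    set g : ℕ → Multiset ℕ := fun t =>
      (p + d * t) ::ₘ (p + d * (τ - t)) ::ₘ Multiset.replicate (h - 2) a with hg
    have hmem : ∀ t ∈ D, g t ∈ reps A h n := by
      intro t ht
      obtain ⟨g1, g2, g3⟩ := hD2 t ht
      refine ⟨?_, ?_, ?_⟩
      · simp only [hg, Multiset.card_cons, Multiset.card_replicate]
        omega
      · simp only [hg, Multiset.sum_cons, Multiset.sum_replicate, smul_eq_mul, hn]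
        have : d * τ = d * t + d * (τ - t) := by rw [← Nat.mul_add]; congr 1; omega
        rw [this]
        ring
      · intro x hx
        simp only [hg, Multiset.mem_cons, Multiset.mem_replicate] at hx
        rcases hx with rfl | rfl | ⟨-, rfl⟩
        · exact g3
        · exact (hD2 _ g2).2.2
        · exact ha
    have hfib : ∀ R ∈ D.image g, (D.filter (fun t => g t = R)).card ≤ 2 := by
      intro R hR
      obtain ⟨t₀, ht₀, rfl⟩ := Finset.mem_image.1 hR
      have hsub : D.filter (fun t => g t = g t₀) ⊆ {t₀, τ - t₀} := by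
        intro t ht
        obtain ⟨ht1, ht2⟩ := Finset.mem_filter.1 ht
        have ht3 : t ≤ τ := (hD2 t ht1).1
        have ht4 : t₀ ≤ τ := (hD2 t₀ ht₀).1
        simp only [hg] at ht2
        have e1 : ({p + d * t, p + d * (τ - t)} : Multiset ℕ) = {p + d * t₀, p + d * (τ - t₀)} := by
          have e2 : ((p + d * t) ::ₘ (p + d * (τ - t)) ::ₘ Multiset.replicate (h - 2) a) =
              ({p + d * t, p + d * (τ - t)} : Multiset ℕ) + Multiset.replicate (h - 2) a := by
            simp [Multiset.insert_eq_cons]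
          have e3 : ((p + d * t₀) ::ₘ (p + d * (τ - t₀)) ::ₘ Multiset.replicate (h - 2) a) =
              ({p + d * t₀, p + d * (τ - t₀)} : Multiset ℕ) + Multiset.replicate (h - 2) a := by
            simp [Multiset.insert_eq_cons]
          rw [e2, e3] at ht2
          exact add_right_cancel ht2
        have e4 : p + d * t ∈ ({p + d * t₀, p + d * (τ - t₀)} : Multiset ℕ) := by
          rw [← e1]
          simp
        simp only [Multiset.insert_eq_cons, Multiset.mem_cons, Multiset.mem_singleton] at e4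
        rw [Finset.mem_insert, Finset.mem_singleton]
        rcases e4 with e4 | e4
        · left
          exact Nat.eq_of_mul_eq_mul_left hd1 (by omega)
        · right
          exact Nat.eq_of_mul_eq_mul_left hd1 (by omega)
      exact (Finset.card_le_card hsub).trans Finset.card_le_two
    have hcard := Finset.card_le_mul_card_image D 2 hfib
    have himg : (D.image g).card ≤ rep A h n := by
      refine le_rep A h n (D.image g) id ?_ (Set.injOn_id _)
      intro R hR
      obtain ⟨t, ht, rfl⟩ := Finset.mem_image.1 hR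
      exact hmem t ht
    have hτ : 2 ^ k ≤ τ + 1 := by
      rw [← hD1, ← Finset.card_range (τ + 1)]
      refine Finset.card_le_card ?_
      intro t ht
      rw [Finset.mem_range]
      have := (hD2 t ht).1
      omega
    refine ⟨n, ?_, ?_, ?_⟩
    · rw [← hD1]
      exact hcard.trans (Nat.mul_le_mul_left 2 himg)
    · have : τ ≤ d * τ := Nat.le_mul_of_pos_left τ hd1
      omega
    · have hwk : 1 ≤ w ^ k := Nat.one_le_pow _ _ (by omega)
      have e1 : 2 * p ≤ 2 * (a + e₁) * w ^ k := by nlinarith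
      have e2 : d * τ ≤ e₂ * w ^ k := by
        apply Nat.mul_le_mul (by omega) (by omega)
      have e3 : (h - 2) * a ≤ (h - 2) * a * w ^ k := Nat.le_mul_of_pos_right _ hwk
      rw [hn, add_mul, add_mul]
      omega
  set C : ℕ := 2 * (a + e₁) + e₂ + (h - 2) * a with hC
  have hC1 : 1 ≤ C := by omega
  set c : ℝ := Real.log 2 / (2 * Real.log w) with hc
  have hc0 : 0 < c := by positivity
  refine ⟨c, hc0, ?_⟩
  rw [frequently_atTop]
  intro n₁
  -- choose `k`
  have ht : Tendsto (fun k : ℕ => Real.exp (k * Real.log 2 / 2)) atTop atTop := by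
    apply Real.tendsto_exp_atTop.comp
    have : Tendsto (fun L : ℕ => (L : ℝ) * (Real.log 2 / 2)) atTop atTop :=
      tendsto_natCast_atTop_atTop.atTop_mul_const (by positivity)
    exact this.congr (fun L => by ring)
  obtain ⟨k, hk1, hk2⟩ := ((ht.eventually_ge_atTop (2 * (C : ℝ) ^ c)).and
    (eventually_ge_atTop (n₁ + 1))).exists
  obtain ⟨n, g1, g2, g3⟩ := key k
  have hkn : k < 2 ^ k := Nat.lt_two_pow_self
  refine ⟨n, by omega, ?_⟩
  set E : ℝ := Real.exp (k * Real.log 2 / 2) with hE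
  have hE2 : E * E = 2 ^ k := by
    rw [hE, ← Real.exp_add, ← Real.rpow_natCast 2 k, Real.rpow_def_of_pos (by norm_num)]
    congr 1
    ring
  have hwk : ((w : ℝ) ^ k) ^ c = E := by
    rw [← Real.rpow_natCast (w : ℝ) k, ← Real.rpow_mul (by linarith), Real.rpow_def_of_pos (by linarith),
      hE]
    congr 1
    rw [hc]
    field_simp
  have e1 : (n : ℝ) ^ c ≤ (C : ℝ) ^ c * E := by
    calc (n : ℝ) ^ c ≤ ((C : ℝ) * (w : ℝ) ^ k) ^ c := by
          apply Real.rpow_le_rpow (Nat.cast_nonneg _) _ hc0.le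
          exact_mod_cast g3
      _ = (C : ℝ) ^ c * E := by rw [Real.mul_rpow (by positivity) (by positivity), hwk]
  have e2 : (2 : ℝ) ^ k ≤ 2 * rep A h n := by exact_mod_cast g1
  have hEpos : 0 < E := Real.exp_pos _
  nlinarith

/-- Sets closed under a bilinear operation, first case. -/
lemma bilinear_first (h α β γ δ : ℕ) (hh : 2 ≤ h) (hα : 1 ≤ α) (A : Set ℕ) (hinf : A.Infinite)
    (hcl : ∀ x ∈ A, ∀ y ∈ A, α * x * y + β * x + γ * y + δ ∈ A) (hne : α * δ + γ ≠ β * γ) :
    ∃ c : ℝ, 0 < c ∧ ∃ᶠ n : ℕ in atTop, (n : ℝ) ^ c ≤ rep A h n := by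
  obtain ⟨y₁, hy₁, h1⟩ := hinf.exists_gt 1
  obtain ⟨y₂, hy₂, h2⟩ := hinf.exists_gt y₁
  have hu1 : 2 ≤ α * y₁ + β := by nlinarith
  have hu2 : 2 ≤ α * y₂ + β := by nlinarith
  have hw : 2 ≤ (α * y₁ + β) * (α * y₂ + β) := by nlinarith
  have f1 : ∀ x ∈ A, (α * y₁ + β) * x + (γ * y₁ + δ) ∈ A := by
    intro x hx
    have := hcl x hx y₁ hy₁
    convert this using 1
    ring
  have f2 : ∀ x ∈ A, (α * y₂ + β) * x + (γ * y₂ + δ) ∈ A := by
    intro x hx
    have := hcl x hx y₂ hy₂
    convert this using 1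
    ring
  have g1 : ∀ x ∈ A, ((α * y₁ + β) * (α * y₂ + β)) * x +
      ((α * y₁ + β) * (γ * y₂ + δ) + (γ * y₁ + δ)) ∈ A := by
    intro x hx
    have := f1 _ (f2 x hx)
    convert this using 1
    ring
  have g2 : ∀ x ∈ A, ((α * y₁ + β) * (α * y₂ + β)) * x +
      ((α * y₂ + β) * (γ * y₁ + δ) + (γ * y₂ + δ)) ∈ A := by
    intro x hx
    have := f2 _ (f1 x hx)
    convert this using 1
    ring
  have hneq : (α * y₁ + β) * (γ * y₂ + δ) + (γ * y₁ + δ) ≠
      (α * y₂ + β) * (γ * y₁ + δ) + (γ * y₂ + δ) := by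
    intro heq
    have e1 : (((α * y₁ + β) * (γ * y₂ + δ) + (γ * y₁ + δ) : ℕ) : ℤ) =
      (((α * y₂ + β) * (γ * y₁ + δ) + (γ * y₂ + δ) : ℕ) : ℤ) := by rw [heq]
    push_cast at e1
    have e2 : ((α : ℤ) * δ + γ - β * γ) * ((y₁ : ℤ) - y₂) = 0 := by linear_combination e1
    rcases mul_eq_zero.1 e2 with e3 | e3
    · apply hne
      have : ((α * δ + γ : ℕ) : ℤ) = ((β * γ : ℕ) : ℤ) := by
        push_cast
        linarith
      exact_mod_cast this
    · omega
  rcases lt_or_gt_of_ne hneq with hlt | hlt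
  · exact affine_pair A y₁ hy₁ _ _ _ hw hlt g1 g2 h hh
  · exact affine_pair A y₁ hy₁ _ _ _ hw hlt g2 g1 h hh

/-- Sets closed under a bilinear operation which is not conjugate to the multiplication. -/
theorem bilinear_noncomm (h α β γ δ : ℕ) (hh : 2 ≤ h) (hα : 1 ≤ α) (A : Set ℕ) (hinf : A.Infinite)
    (hcl : ∀ x ∈ A, ∀ y ∈ A, α * x * y + β * x + γ * y + δ ∈ A)
    (hne : ¬ (β = γ ∧ α * δ + β = β ^ 2)) :
    ∃ c : ℝ, 0 < c ∧ ∃ᶠ n : ℕ in atTop, (n : ℝ) ^ c ≤ rep A h n := by
  by_cases h1 : α * δ + γ = β * γ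
  · by_cases h2 : α * δ + β = γ * β
    · exfalso
      apply hne
      have : β = γ := by
        have : γ * β = β * γ := mul_comm _ _
        omega
      refine ⟨this, ?_⟩
      rw [h2, ← this, sq]
    · refine bilinear_first h α γ β δ hh hα A hinf (fun x hx y hy => ?_) h2
      have := hcl y hy x hx
      convert this using 1
      ring
  · exact bilinear_first h α β γ δ hh hα A hinf hcl h1

/-- Sets closed under a linear operation in two variables. -/
theorem linear_op (h β γ δ : ℕ) (hh : 2 ≤ h) (hβ : 1 ≤ β) (hγ : 1 ≤ γ) (A : Set ℕ) (hinf : A.Infinite)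
    (hcl : ∀ x ∈ A, ∀ y ∈ A, β * x + γ * y + δ ∈ A) :
    ∃ c : ℝ, 0 < c ∧ ∃ᶠ n : ℕ in atTop, (n : ℝ) ^ c ≤ rep A h n := by
  obtain ⟨y₁, hy₁, h1⟩ := hinf.exists_gt 0
  obtain ⟨y₂, hy₂, h2⟩ := hinf.exists_gt y₁
  by_cases hβ2 : 2 ≤ β
  · refine affine_pair A y₁ hy₁ β (γ * y₁ + δ) (γ * y₂ + δ) hβ2 (by nlinarith) ?_ ?_ h hh
    · intro x hx
      have := hcl x hx y₁ hy₁
      rwa [add_assoc] at this
    · intro x hx
      have := hcl x hx y₂ hy₂
      rwa [add_assoc] at this
  · by_cases hγ2 : 2 ≤ γ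
    · refine affine_pair A y₁ hy₁ γ (β * y₁ + δ) (β * y₂ + δ) hγ2 (by nlinarith) ?_ ?_ h hh
      · intro x hx
        have := hcl y₁ hy₁ x hx
        convert this using 1
        ring
      · intro x hx
        have := hcl y₂ hy₂ x hx
        convert this using 1
        ring
    · have e1 : β = 1 := by omega
      have e2 : γ = 1 := by omega
      subst e1 e2
      refine affine_pair A y₁ hy₁ 2 δ (y₁ + 2 * δ) le_rfl (by omega) ?_ ?_ h hh
      · intro x hx
        have := hcl x hx x hx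
        convert this using 1
        ring
      · intro x hx
        have := hcl x hx _ (hcl x hx y₁ hy₁)
        convert this using 1
        ring

end Pool.Agent.Helper27K9.MSG
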