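import Mathlib
import Pool.Agent.Helper27K9.MSG.Core

set_option autoImplicit false

/-!
# Bases of order `h` and multiplicative semigroups
-/

namespace Pool.Agent.Helper27K9.MSG

open Finset Filter

lemma choose_bound (h : ℕ) (hh : 1 ≤ h) : ∃ ε : ℝ, 0 < ε ∧ ∀ L F : ℕ, (F : ℝ) ≤ ε * L →
    (((F + L).choose L : ℕ) : ℝ) ≤ Real.exp (L * Real.log 2 / (2 * h)) := by
  have hh' : (1 : ℝ) ≤ h := by exact_mod_cast hh
  have hl2 : 0 < Real.log 2 := Real.log_pos (by norm_num)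
  have hl2' : Real.log 2 < 1 := by
    have := Real.log_two_lt_d9
    linarith
  set δ : ℝ := Real.log 2 / (8 * h) with hδ
  have hδ0 : 0 < δ := by positivity
  have hδ1 : δ < 1 := by
    rw [hδ, div_lt_one (by positivity)]
    linarith
  set Λ : ℝ := Real.log (1 / δ) with hΛ
  have hΛ0 : 0 < Λ := Real.log_pos (by rw [lt_div_iff₀ hδ0]; linarith)
  set ε : ℝ := min 1 (Real.log 2 / (4 * h) / (Λ + 1)) with hε
  refine ⟨ε, lt_min one_pos (by positivity), ?_⟩
  intro L F hF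
  have e1 : (((F + L).choose L : ℕ) : ℝ) = (((F + L).choose F : ℕ) : ℝ) := by
    rw [Nat.choose_symm_add]
  rw [e1]
  have h1 : (((F + L).choose F : ℕ) : ℝ) ≤ ((F + L : ℕ) : ℝ) ^ F / (F.factorial : ℝ) :=
    Nat.choose_le_pow_div F (F + L)
  have h2 : ((F + L : ℕ) : ℝ) ^ F / (F.factorial : ℝ) =
      (1 / δ) ^ F * ((δ * ((F + L : ℕ) : ℝ)) ^ F / (F.factorial : ℝ)) := by
    rw [mul_pow, one_div, inv_pow]
    field_simp
  have h3 : (δ * ((F + L : ℕ) : ℝ)) ^ F / (F.factorial : ℝ) ≤ Real.exp (δ * ((F + L : ℕ) : ℝ)) :=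
    Real.pow_div_factorial_le_exp _ (by positivity) F
  have h4 : (1 / δ) ^ F = Real.exp (Λ * F) := by
    rw [hΛ, ← Real.rpow_natCast, Real.rpow_def_of_pos (by positivity)]
  rw [h2, h4] at h1
  refine h1.trans ?_
  refine (mul_le_mul_of_nonneg_left h3 (Real.exp_pos _).le).trans ?_
  rw [← Real.exp_add]
  apply Real.exp_le_exp.2
  have hL0 : (0 : ℝ) ≤ L := Nat.cast_nonneg L
  have h5 : (F : ℝ) ≤ L := hF.trans (by
    have : ε ≤ 1 := min_le_left _ _
    nlinarith)
  have h6 : Λ * F ≤ Real.log 2 / (4 * h) * L := by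
    have h7 : ε ≤ Real.log 2 / (4 * h) / (Λ + 1) := min_le_right _ _
    have h8 : Λ * ε ≤ Real.log 2 / (4 * h) := by
      calc Λ * ε ≤ (Λ + 1) * ε := by
            have : 0 < ε := lt_min one_pos (by positivity)
            nlinarith
        _ ≤ (Λ + 1) * (Real.log 2 / (4 * h) / (Λ + 1)) :=
            mul_le_mul_of_nonneg_left h7 (by positivity)
        _ = Real.log 2 / (4 * h) := by field_simp
    calc Λ * F ≤ Λ * (ε * L) := mul_le_mul_of_nonneg_left hF hΛ0.le
      _ = (Λ * ε) * L := by ring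
      _ ≤ Real.log 2 / (4 * h) * L := mul_le_mul_of_nonneg_right h8 hL0
  have h9 : δ * ((F + L : ℕ) : ℝ) ≤ Real.log 2 / (4 * h) * L := by
    push_cast
    calc δ * ((F : ℝ) + L) ≤ δ * (2 * L) := mul_le_mul_of_nonneg_left (by linarith) hδ0.le
      _ = Real.log 2 / (4 * h) * L := by rw [hδ]; field_simp; ring
  calc Λ * F + δ * ((F + L : ℕ) : ℝ) ≤ Real.log 2 / (4 * h) * L + Real.log 2 / (4 * h) * L :=
        add_le_add h6 h9
    _ = L * Real.log 2 / (2 * h) := by field_simp; ring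

lemma growth (A : Set ℕ) (h n₀ y : ℕ) (hA : ∀ n, n₀ ≤ n → (reps A h n).Nonempty) :
    y + 1 ≤ n₀ + ((A ∩ Set.Iic y).ncard) ^ h := by
  classical
  have hfin : (A ∩ Set.Iic y).Finite := (Set.finite_Iic y).subset Set.inter_subset_right
  have h1 : Finset.Icc n₀ y ⊆
      (Fintype.piFinset (fun _ : Fin h => hfin.toFinset)).image (fun f => ∑ i, f i) := by
    intro n hn
    rw [Finset.mem_Icc] at hn
    obtain ⟨R, hR1, hR2, hR3⟩ := hA n hn.1
    obtain ⟨l, rfl⟩ : ∃ l : List ℕ, (l : Multiset ℕ) = R := Quotient.exists_rep R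
    have hl : l.length = h := by simpa using hR1
    subst hl
    rw [Finset.mem_image]
    refine ⟨fun i => l.get i, ?_, ?_⟩
    · rw [Fintype.mem_piFinset]
      intro i
      rw [Set.Finite.mem_toFinset]
      have hmem : l.get i ∈ (l : Multiset ℕ) := by simp
      refine ⟨hR3 _ hmem, ?_⟩
      have := Multiset.le_sum_of_mem hmem
      rw [Set.mem_Iic]
      omega
    · have h2 : (List.ofFn (fun i => l.get i)).sum = ∑ i, l.get i := List.sum_ofFn
      rw [← h2, List.ofFn_get]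
      simpa using hR2
  have h2 := Finset.card_le_card h1
  have h3 := h2.trans Finset.card_image_le
  rw [Nat.card_Icc, Fintype.card_piFinset, Finset.prod_const, Finset.card_univ, Fintype.card_fin,
    ← Set.ncard_eq_toFinset_card _ hfin] at h3
  omega

lemma reps_image (A : Set ℕ) (h N α β : ℕ) (hα : 1 ≤ α)
    (hne : (reps ((fun a => α * a + β) '' A) h N).Nonempty) :
    ∃ n, N = α * n + h * β ∧ rep ((fun a => α * a + β) '' A) h N ≤ rep A h n := by
  classical
  set φ : ℕ → ℕ := fun a => α * a + β with hφ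
  have hback : ∀ R ∈ reps (φ '' A) h N, ∃ R' : Multiset ℕ, R'.card = h ∧ (∀ x ∈ R', x ∈ A) ∧
      R'.map φ = R ∧ N = α * R'.sum + h * β := by
    rintro R ⟨h1, h2, h3⟩
    choose! g hg1 hg2 using h3
    refine ⟨R.map g, by simpa using h1, ?_, ?_, ?_⟩
    · intro x hx
      obtain ⟨y, hy, rfl⟩ := Multiset.mem_map.1 hx
      exact hg1 y hy
    · rw [Multiset.map_map]
      conv_rhs => rw [← Multiset.map_id R]
      exact Multiset.map_congr rfl (fun x hx => by simpa using hg2 x hx)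
    · have h4 : (R.map g).map φ = R := by
        rw [Multiset.map_map]
        conv_rhs => rw [← Multiset.map_id R]
        exact Multiset.map_congr rfl (fun x hx => by simpa using hg2 x hx)
      rw [← h2]
      conv_lhs => rw [← h4]
      simp only [hφ]
      rw [Multiset.sum_map_add, Multiset.sum_map_mul_left]
      simp [h1]
  obtain ⟨R, hR⟩ := hne
  obtain ⟨R', h1, h2, h3, h4⟩ := hback R hR
  refine ⟨R'.sum, h4, ?_⟩
  have hsub : reps (φ '' A) h N ⊆ (fun S => Multiset.map φ S) '' (reps A h R'.sum) := by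
    intro S hS
    obtain ⟨S', g1, g2, g3, g4⟩ := hback S hS
    refine ⟨S', ⟨g1, ?_, g2⟩, g3⟩
    have : α * S'.sum = α * R'.sum := by omega
    exact Nat.eq_of_mul_eq_mul_left hα this
  calc rep (φ '' A) h N ≤ ((fun S => Multiset.map φ S) '' (reps A h R'.sum)).ncard :=
        Set.ncard_le_ncard hsub ((reps_finite A h _).image _)
    _ ≤ (reps A h R'.sum).ncard := Set.ncard_image_le (reps_finite A h _)

theorem main (h : ℕ) (hh : 2 ≤ h) (A : Set ℕ) (hA : ∀ᶠ n in atTop, (reps A h n).Nonempty)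
    (α β : ℕ) (hα : 1 ≤ α) (hd : α ∣ (h - 1) * β) (M C : Set ℕ) (hM1 : 1 ∈ M)
    (hMM : ∀ x ∈ M, ∀ y ∈ M, x * y ∈ M)
    (hMB : ∀ m ∈ M, ∀ b ∈ (fun a => α * a + β) '' A, m * b ∈ (fun a => α * a + β) '' A)
    (hB0 : 0 ∉ (fun a => α * a + β) '' A)
    (hBC : ∀ b ∈ (fun a => α * a + β) '' A, ∃ c ∈ C, ∃ m ∈ M, b = c * m) :
    ∃ ε : ℝ, 0 < ε ∧ ∃ L₀ : ℕ, ∀ L : ℕ, L₀ ≤ L → ∀ K : ℕ, 1 ≤ K →
      (K : ℝ) * ((C ∩ Set.Icc 1 (2 ^ L)).ncard : ℝ) ≤ ε * L →
      ∃ n, K ≤ rep A h n ∧ K ≤ α * n + h * β ∧ α * n + h * β ≤ 2 ^ (L * (K + 1)) := by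
  classical
  obtain ⟨n₀, hn₀⟩ := eventually_atTop.1 hA
  obtain ⟨D, hD⟩ := hd
  obtain ⟨ε, hε, hch⟩ := choose_bound h (by omega)
  set B : Set ℕ := (fun a => α * a + β) '' A with hB
  set X0 : ℕ := α * (n₀ + D) + β + 1 with hX0
  have hdec : ∀ X ∈ B, X0 ≤ X → (reps B h X).Nonempty := by
    rintro X ⟨a, ha, rfl⟩ hXa
    have h1 : n₀ + D ≤ a := by
      by_contra hcon
      have : a ≤ n₀ + D := by omega
      have := Nat.mul_le_mul_left α this
      simp only at hXa
      omega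
    obtain ⟨R, hR1, hR2, hR3⟩ := hn₀ (a - D) (by omega)
    refine ⟨R.map (fun a => α * a + β), by simpa using hR1, ?_, ?_⟩
    · rw [Multiset.sum_map_add, Multiset.sum_map_mul_left]
      simp only [Multiset.map_id', Multiset.map_const', Multiset.sum_replicate, smul_eq_mul, hR1, hR2]
      have h2 : α * (a - D) = α * a - α * D := Nat.mul_sub _ _ _
      have h3 : α * D ≤ α * a := Nat.mul_le_mul_left _ (by omega)
      rw [h2, ← hD]
      obtain ⟨h', rfl⟩ : ∃ h', h = h' + 1 := ⟨h - 1, by omega⟩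
      rw [← hD] at h3
      simp only [Nat.add_sub_cancel] at h3 ⊢
      rw [add_mul, one_mul]
      omega
    · intro x hx
      obtain ⟨y, hy, rfl⟩ := Multiset.mem_map.1 hx
      exact ⟨y, hR3 y hy, rfl⟩
  have hl2 : 0 < Real.log 2 := Real.log_pos (by norm_num)
  -- large L
  have htend : Tendsto (fun L : ℕ => Real.exp (L * Real.log 2 / 2)) atTop atTop := by
    apply Real.tendsto_exp_atTop.comp
    have : Tendsto (fun L : ℕ => (L : ℝ) * (Real.log 2 / 2)) atTop atTop :=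
      tendsto_natCast_atTop_atTop.atTop_mul_const (by positivity)
    refine this.congr (fun L => by ring)
  obtain ⟨L₀, hL₀⟩ := eventually_atTop.1
    (htend.eventually_ge_atTop ((β : ℝ) + α * n₀ + α * (X0 : ℝ) ^ h + 1))
  refine ⟨ε, hε, L₀, ?_⟩
  intro L hL K hK hKC
  have hE := hL₀ L hL
  set E : ℝ := Real.exp (L * Real.log 2 / 2) with hEdef
  have hE2 : E ^ 2 = 2 ^ L := by
    rw [hEdef, ← Real.exp_nat_mul, ← Real.rpow_natCast 2 L, Real.rpow_def_of_pos (by norm_num)]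
    congr 1
    push_cast
    ring
  have hE1 : 1 ≤ E := by
    have : (0 : ℝ) ≤ (β : ℝ) + α * n₀ + α * (X0 : ℝ) ^ h := by positivity
    linarith
  set F : ℕ := ⌊ε * L⌋₊ with hF
  have hFle : (F : ℝ) ≤ ε * L := Nat.floor_le (by positivity)
  have hKF : K * (C ∩ Set.Icc 1 (2 ^ L)).ncard ≤ F := by
    apply Nat.le_floor
    push_cast
    exact hKC
  have hcount : X0 * ((F + L).choose L) < (B ∩ Set.Icc 1 (2 ^ L)).ncard := by
    by_contra hcon
    have hcon := not_lt.1 hcon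
    -- the elements of `A` up to `y`
    set y : ℕ := (2 ^ L - β) / α with hy
    have hβ : (β : ℝ) ≤ 2 ^ L := by
      rw [← hE2]
      have : (0 : ℝ) ≤ α * n₀ + α * (X0 : ℝ) ^ h := by positivity
      nlinarith
    have hβ' : β ≤ 2 ^ L := by exact_mod_cast hβ
    have hyle : α * y + β ≤ 2 ^ L := by
      have := Nat.mul_div_le (2 ^ L - β) α
      rw [← hy] at this
      omega
    have hylt : 2 ^ L < α * (y + 1) + β := by
      have := Nat.lt_mul_div_succ (2 ^ L - β) (show 0 < α by omega)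
      simp only [← hy] at this
      omega
    have hfinB : (B ∩ Set.Icc 1 (2 ^ L)).Finite := (Set.finite_Icc 1 (2 ^ L)).subset Set.inter_subset_right
    have h1 : (A ∩ Set.Iic y).ncard ≤ (B ∩ Set.Icc 1 (2 ^ L)).ncard := by
      refine Set.ncard_le_ncard_of_injOn (fun a => α * a + β) ?_ ?_ hfinB
      · rintro a ⟨ha, hay⟩
        have hmem : α * a + β ∈ B := ⟨a, ha, rfl⟩
        refine ⟨hmem, ?_, ?_⟩
        · rcases Nat.eq_zero_or_pos (α * a + β) with h0 | h0
          · exact absurd (h0 ▸ hmem) hB0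
          · exact h0
        · have : α * a ≤ α * y := Nat.mul_le_mul_left _ hay
          omega
      · intro a _ b _ hab
        have : α * a = α * b := by
          simp only at hab
          omega
        exact Nat.eq_of_mul_eq_mul_left hα this
    have h2 := growth A h n₀ y hn₀
    have h3 : ((A ∩ Set.Iic y).ncard) ^ h ≤ (X0 * ((F + L).choose L)) ^ h :=
      Nat.pow_le_pow_left (h1.trans hcon) h
    have h4 : ((y : ℝ) + 1) ≤ n₀ + ((X0 : ℝ) * (((F + L).choose L : ℕ) : ℝ)) ^ h := by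
      exact_mod_cast h2.trans (Nat.add_le_add_left h3 n₀)
    have h5 : (((F + L).choose L : ℕ) : ℝ) ^ h ≤ E := by
      calc (((F + L).choose L : ℕ) : ℝ) ^ h ≤ (Real.exp (L * Real.log 2 / (2 * h))) ^ h :=
            pow_le_pow_left₀ (Nat.cast_nonneg _) (hch L F hFle) h
        _ = E := by
            rw [← Real.exp_nat_mul, hEdef]
            congr 1
            have : (h : ℝ) ≠ 0 := by positivity
            field_simp
    have h6 : (2 : ℝ) ^ L < α * ((y : ℝ) + 1) + β := by exact_mod_cast hylt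
    rw [mul_pow] at h4
    have h7 : (X0 : ℝ) ^ h * (((F + L).choose L : ℕ) : ℝ) ^ h ≤ (X0 : ℝ) ^ h * E :=
      mul_le_mul_of_nonneg_left h5 (by positivity)
    have h8 : (α : ℝ) * ((y : ℝ) + 1) ≤ α * (n₀ + (X0 : ℝ) ^ h * E) :=
      mul_le_mul_of_nonneg_left (by linarith) (by positivity)
    rw [← hE2] at h6
    have h9 : E * ((β : ℝ) + α * n₀ + α * (X0 : ℝ) ^ h + 1) ≤ E * E :=
      mul_le_mul_of_nonneg_left hE (by linarith)
    have h10 : (β : ℝ) ≤ E * β := by
      have : (0 : ℝ) ≤ β := Nat.cast_nonneg β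
      nlinarith
    have h11 : (α : ℝ) * n₀ ≤ E * (α * n₀) := by
      have : (0 : ℝ) ≤ (α : ℝ) * n₀ := by positivity
      nlinarith
    nlinarith
  obtain ⟨N, hN1, hN2, hN3⟩ := core h hh B M C hM1 hMM hMB hB0 hBC X0 hdec L F K hcount hKF hK
  have hne : (reps B h N).Nonempty := by
    apply Set.nonempty_of_ncard_ne_zero
    have : 1 ≤ rep B h N := hK.trans hN1
    unfold rep at this
    omega
  obtain ⟨n, hn1, hn2⟩ := reps_image A h N α β hα hne
  refine ⟨n, hN1.trans hn2, ?_, ?_⟩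
  · rw [← hn1]
    exact hN2
  · rw [← hn1]
    exact hN3

/-- a square root of the logarithm -/
lemma freq_sqrt (A : Set ℕ) (h α β : ℕ) (hα : 1 ≤ α) (ε : ℝ) (hε : 0 < ε) (L₀ : ℕ)
    (H : ∀ L : ℕ, L₀ ≤ L → ∀ K : ℕ, 1 ≤ K → (K : ℝ) ≤ ε * L →
      ∃ n, K ≤ rep A h n ∧ K ≤ α * n + h * β ∧ α * n + h * β ≤ 2 ^ (L * (K + 1))) :
    ∃ c : ℝ, 0 < c ∧ ∃ᶠ n : ℕ in atTop, c * Real.sqrt (Real.log n) ≤ rep A h n := by
  have hl2 : 0 < Real.log 2 := Real.log_pos (by norm_num)
  refine ⟨Real.sqrt (ε / (4 * Real.log 2)), Real.sqrt_pos.2 (by positivity), ?_⟩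
  rw [frequently_atTop]
  intro n₁
  -- choose `L` large
  obtain ⟨L₁, hL₁⟩ := exists_nat_gt ((2 + (α * (n₁ + 1) + h * β : ℕ) : ℝ) / ε)
  set L : ℕ := max L₀ L₁ with hL
  have hLL : (2 + (α * (n₁ + 1) + h * β : ℕ) : ℝ) < ε * L := by
    have h1 : (2 + (α * (n₁ + 1) + h * β : ℕ) : ℝ) < ε * L₁ := by
      rw [div_lt_iff₀ hε] at hL₁
      linarith
    have h2 : (L₁ : ℝ) ≤ L := by exact_mod_cast le_max_right L₀ L₁
    nlinarith
  set K : ℕ := ⌊ε * L⌋₊ with hK
  have hK1 : (K : ℝ) ≤ ε * L := Nat.floor_le (by positivity)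
  have hK2 : ε * L < K + 1 := Nat.lt_floor_add_one _
  have hK3 : 1 + (α * (n₁ + 1) + h * β) ≤ K := by
    have : (1 + (α * (n₁ + 1) + h * β : ℕ) : ℝ) < (K : ℝ) := by linarith
    have h3 : ((1 + (α * (n₁ + 1) + h * β) : ℕ) : ℝ) < (K : ℝ) := by
      push_cast at this ⊢
      linarith
    exact le_of_lt (by exact_mod_cast h3)
  obtain ⟨n, h1, h2, h3⟩ := H L (le_max_left _ _) K (by omega) hK1
  have hn : n₁ ≤ n := by
    by_contra hcon
    have : n ≤ n₁ + 1 := by omega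
    have := Nat.mul_le_mul_left α this
    omega
  have hn1 : 1 ≤ n := by
    by_contra hcon
    have : n = 0 := by omega
    subst this
    have : α * 1 ≤ α * (n₁ + 1) := Nat.mul_le_mul_left _ (by omega)
    omega
  refine ⟨n, hn, ?_⟩
  have hnle : n ≤ 2 ^ (L * (K + 1)) := by
    refine le_trans ?_ h3
    nlinarith
  have hlog : Real.log n ≤ (L * (K + 1)) * Real.log 2 := by
    have h4 : Real.log n ≤ Real.log ((2 : ℝ) ^ (L * (K + 1))) := by
      apply Real.log_le_log (by exact_mod_cast hn1)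
      exact_mod_cast hnle
    rw [Real.log_pow] at h4
    push_cast at h4
    exact h4
  have hKr : (1 : ℝ) ≤ K := by
    have : 1 ≤ K := by omega
    exact_mod_cast this
  have hL2 : (L : ℝ) ≤ 2 * K / ε := by
    rw [le_div_iff₀ hε]
    linarith
  have hlog2 : Real.log n ≤ 4 * Real.log 2 / ε * (K : ℝ) ^ 2 := by
    refine hlog.trans ?_
    have h5 : (L : ℝ) * (K + 1) ≤ (2 * K / ε) * (2 * K) := by
      apply mul_le_mul hL2 (by linarith) (by positivity) (by positivity)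
    calc ((L : ℝ) * (K + 1)) * Real.log 2 ≤ ((2 * K / ε) * (2 * K)) * Real.log 2 :=
          mul_le_mul_of_nonneg_right h5 hl2.le
      _ = 4 * Real.log 2 / ε * (K : ℝ) ^ 2 := by ring
  rw [← Real.sqrt_mul (by positivity)]
  have h6 : ε / (4 * Real.log 2) * Real.log n ≤ (K : ℝ) ^ 2 := by
    calc ε / (4 * Real.log 2) * Real.log n ≤ ε / (4 * Real.log 2) * (4 * Real.log 2 / ε * (K : ℝ) ^ 2) :=
          mul_le_mul_of_nonneg_left hlog2 (by positivity)
      _ = (K : ℝ) ^ 2 := by field_simp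
  calc Real.sqrt (ε / (4 * Real.log 2) * Real.log n) ≤ Real.sqrt ((K : ℝ) ^ 2) := Real.sqrt_le_sqrt h6
    _ = K := Real.sqrt_sq (by positivity)
    _ ≤ rep A h n := by exact_mod_cast h1

end Pool.Agent.Helper27K9.MSG
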